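import Pool.Agent.H82.SZ.Fin
import Pool.Agent.H53.SZC.Fin

/-!
# MP_103a5c SimpleZeros, version 2 (close pairs of zeros): definitions and statements of the blocks

`s = 1/2 + w`, `L = log T`, `ln x t = x + i t` (`Pool.Agent.H53.SZC.ln`).
-/

open Finset Filter Topology MeasureTheory
open scoped ArithmeticFunction.vonMangoldt ArithmeticFunction.Moebius ArithmeticFunction.zeta

namespace H82SZ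

noncomputable section

open Pool.Agent.H53.SZC (ln SD)

/-- `ζ(s) M(s)` -/
def ZM (P : ℝ → ℝ) (T : ℝ) (s : ℂ) : ℂ := riemannZeta s * dpol T (xk P T) s

/-- `(1/2π) ∫ G(s) ζ(s) M(s) ζ(1-s) M(1-s) dt`, `s = a + it` -/
def MZ (P : ℝ → ℝ) (T : ℝ) : ℂ :=
  (2 * Real.pi : ℂ)⁻¹ * ∫ t : ℝ, Gs T (aT T + t * Complex.I) * ZM P T (aT T + t * Complex.I) *
    ZM P T (1 - (aT T + t * Complex.I))

/-- `((s-1)/(s+1)) ζ(s) M(s) G(s)^{1/2}`, `s = 1/2 + w`; `Z s = (s-1) ζ(s)` -/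
def fz (P : ℝ → ℝ) (T : ℝ) (w : ℂ) : ℂ :=
  Pool.Agent.H17.ZB.Z (1 / 2 + w) / (3 / 2 + w) * dpol T (xk P T) (1 / 2 + w) *
    Complex.exp ((w - T * Complex.I) ^ 2 * (Real.log T : ℂ) / (2 * (T : ℂ) ^ 2))

/-- `∫ |f(x+it)|² dt` -/
def J2 (f : ℂ → ℂ) (x : ℝ) : ℝ := ∫ t : ℝ, ‖f (ln x t)‖ ^ 2

/-- I1 -/
def I1stat : Prop := ∀ (ε : ℝ) (P : ℝ → ℝ), 0 < ε → ε < 1 / 2 → Adm (1 / 2 - ε) P →
  ∃ C T0 : ℝ, 0 ≤ C ∧ ∀ T, T0 ≤ T → J2 (fz P T) 0 ≤ C * ‖MZ P T‖ + C * T ^ (3 / 4 : ℝ)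

/-- I2 -/
def I2stat : Prop := ∀ (ε : ℝ) (P : ℝ → ℝ), 0 < ε → ε < 1 / 2 → Adm (1 / 2 - ε) P →
  ∃ C T0 : ℝ, 0 ≤ C ∧ ∀ T, T0 ≤ T →
    ‖MZ P T - Dj P T 0 ((ζ : ArithmeticFunction ℝ) * (ζ : ArithmeticFunction ℝ) * xk P T)‖ ≤ C * T ^ (1 - ε / 2)

/-- I4 -/
def I4stat : Prop := ∀ (ε : ℝ) (P : ℝ → ℝ), 0 < ε → ε < 1 / 2 → Adm (1 / 2 - ε) P →
  MLim P 0 0 (fun T => (ζ : ArithmeticFunction ℝ) * (ζ : ArithmeticFunction ℝ) * xk P T)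
    (P 0 ^ 2 + ∫ v in (0 : ℝ)..1, deriv P v ^ 2)

/-- I0: the mean square on the critical line -/
def I0stat : Prop := ∀ (ε : ℝ) (P : ℝ → ℝ), 0 < ε → ε < 1 / 2 → Adm (1 / 2 - ε) P →
  ∃ C T0 : ℝ, 0 ≤ C ∧ ∀ T, T0 ≤ T → J2 (fz P T) 0 ≤ C * om T

/-- JA: decay of `fz` in the strip -/
def JAstat : Prop := ∀ (P : ℝ → ℝ) (T : ℝ), 1 < T → ∃ K : ℝ, SD 3 (-1) 2 K (fz P T)

/-- JB: midpoint log-convexity of the mean squares -/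
def JBstat : Prop := ∀ (a b K : ℝ) (f : ℂ → ℂ), a < b → SD 3 a b K f → J2 f ((a + b) / 2) ^ 2 ≤ J2 f a * J2 f b

/-- JC: the trivial bound to the right -/
def JCstat : Prop := ∀ (ε : ℝ) (P : ℝ → ℝ), 0 < ε → ε < 1 / 2 → Adm (1 / 2 - ε) P →
  ∃ C T0 : ℝ, 0 ≤ C ∧ ∀ T, T0 ≤ T → ∀ x, 1 ≤ x → x ≤ 2 → J2 (fz P T) x ≤ C * om T

/-- JD: the mean square on `Re w = 1/L` -/
def JDstat : Prop := ∀ (ε : ℝ) (P : ℝ → ℝ), 0 < ε → ε < 1 / 2 → Adm (1 / 2 - ε) P →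
  ∃ C T0 : ℝ, 0 ≤ C ∧ ∀ T, T0 ≤ T → J2 (fz P T) (1 / Real.log T) ≤ C * om T

/-- JE1: the ratio of zeta values -/
def JE1stat : Prop := ∃ C T0 : ℝ, 0 ≤ C ∧ ∀ T, T0 ≤ T → ∀ t : ℝ, |t| ≤ 10 * T →
  ‖riemannZeta (1 / 2 + ln (-(1 / Real.log T)) t)‖ ≤ C * ‖riemannZeta (1 / 2 + ln (1 / Real.log T) t)‖

/-- JE2: the far region on the left line -/
def JE2stat : Prop := ∀ (ε : ℝ) (P : ℝ → ℝ), 0 < ε → ε < 1 / 2 → Adm (1 / 2 - ε) P →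
  ∃ C T0 : ℝ, 0 ≤ C ∧ ∀ T, T0 ≤ T → ∀ t : ℝ, 10 * T ≤ |t| →
    ‖fz P T (ln (-(1 / Real.log T)) t)‖ ^ 2 ≤ C / (1 + t ^ 2)

/-- JE: the mean square on `Re w = -1/L` -/
def JEstat : Prop := ∀ (ε : ℝ) (P : ℝ → ℝ), 0 < ε → ε < 1 / 2 → Adm (1 / 2 - ε) P →
  ∃ C T0 : ℝ, 0 ≤ C ∧ ∀ T, T0 ≤ T → J2 (fz P T) (-(1 / Real.log T)) ≤
    C * J2 (fz (fun v => P v * Real.exp (2 * v)) T) (1 / Real.log T) + C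

/-- JF: second derivative on the imaginary axis -/
def JFstat : Prop := ∀ (c K : ℝ) (f : ℂ → ℂ), 0 < c → SD 3 (-c) c K f →
  Integrable (fun t : ℝ => ‖deriv (deriv f) (ln 0 t)‖ ^ 2) ∧
  J2 (deriv (deriv f)) 0 ≤ 10 / c ^ 4 * (J2 f c + J2 f (-c))

/-- JG: the final statement of block J -/
def JGstat : Prop := ∀ (ε : ℝ) (P : ℝ → ℝ), 0 < ε → ε < 1 / 2 → Adm (1 / 2 - ε) P →
  ∃ C T0 : ℝ, 0 ≤ C ∧ ∀ T, T0 ≤ T →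
    Integrable (fun t : ℝ => ‖deriv (deriv (fz P T)) (ln 0 t)‖ ^ 2) ∧
    J2 (deriv (deriv (fz P T))) 0 ≤ C * Real.log T ^ 4 * om T

/-- W1: derivative at zeros with a close neighbour -/
def W1stat : Prop := ∀ (g : ℝ → ℂ), ContDiff ℝ 2 g → Integrable (fun t => ‖deriv (deriv g) t‖ ^ 2) →
  ∀ h : ℝ, 0 < h → ∀ F : Finset ℝ, (∀ x ∈ F, g x = 0 ∧ ∃ y, y ≠ x ∧ |y - x| ≤ h ∧ g y = 0) →
    ∑ x ∈ F, ‖deriv g x‖ ^ 2 ≤ 2 * h * ∫ t : ℝ, ‖deriv (deriv g) t‖ ^ 2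

open Pool.Agent Pool.Agent.H6 Pool.Agent.H26.SZ in
/-- W2: the values `ζ'(ρ) M(ρ) / L` at the zeros with a close neighbour -/
def W2stat : Prop := ∀ (ε : ℝ) (P : ℝ → ℝ), 0 < ε → ε < 1 / 2 → Adm (1 / 2 - ε) P →
  ∃ C : ℝ, 0 ≤ C ∧ ∀ β : ℝ, 0 < β → ∀ᶠ T in atTop, ∀ F : Finset PC.Z,
    (∀ i ∈ F, gZ i ∈ Set.Icc (T / 4) (4 * T) ∧ ∃ j : PC.Z, j ≠ i ∧ |gZ j - gZ i| ≤ 2 * Real.pi * β / Real.log T) →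
    ∑ i ∈ F, Gw T (gZ i) * ‖deriv riemannZeta (rZ i) * dpol T (xk P T) (rZ i) / (Real.log T : ℂ)‖ ^ 2 ≤
      C * β * (om T * Real.log T)

open Pool.Agent in
/-- the final theorem -/
def V2stat : Prop := ∃ β : ℝ, 0 < β ∧ ∀ᶠ T in atTop,
  PC.pairCount T (-β) β ≤ 1.2928 * PC.norm T ∧
  0.7072 * PC.norm T ≤ (({ρ : ℂ | ρ ∈ PC.zerosUpTo T ∧ deriv riemannZeta ρ ≠ 0 ∧
    ∀ ρ' : ℂ, riemannZeta ρ' = 0 → 0 < ρ'.re → ρ'.re < 1 → ρ' ≠ ρ →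
      2 * Real.pi * β / Real.log T < |ρ'.im - ρ.im|}.ncard : ℕ) : ℝ) ∧
  0.8536 * PC.norm T ≤ (((PC.zerosUpTo T).ncard : ℕ) : ℝ)

end

end H82SZ
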