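import Pool.Agent.H82.SZ2.Defs

/-!
# MP_103a5c SimpleZeros v2: the mean square on the critical line from the blocks I1, I2, I4 and Theorem E
-/

open Finset Filter Topology MeasureTheory
open scoped ArithmeticFunction.vonMangoldt ArithmeticFunction.Moebius ArithmeticFunction.zeta

namespace H82SZ

/-- the error terms for `ζ * ζ * x` -/
theorem Esmall_zz {ε : ℝ} (hε : 0 < ε) (hε' : ε ≤ 1 / 4) (hE : ThmE ε) {P : ℝ → ℝ} (hP : Adm (1 / 2 - ε) P) :
    Esmall P fun T => (ζ : ArithmeticFunction ℝ) * (ζ : ArithmeticFunction ℝ) * xk P T := by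
  obtain ⟨B1, hB1, hB1'⟩ := hP.bdd
  set G : ℝ := max 2 B1 with hG
  have hG2 : 2 ≤ G := le_max_left _ _
  have hGB1 : B1 ≤ G := le_max_right _ _
  have hG1 : 1 ≤ G := by linarith
  have sz : SZE.Sm G (toC (ζ : ArithmeticFunction ℝ)) := by rw [toC_zeta]; exact Sm_mono hG2 Sm_zeta
  have gen : ∀ c : ℝ → ArithmeticFunction ℝ, (∀ T : ℝ, 1 < T → SZE.Cc T ε G (toC (c T))) → Esmall P c := by
    intro c hc A j hj
    obtain ⟨C, T0, h⟩ := Ed_bound hε hε' hE hP hG1 A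
    refine ⟨C, max T0 2, fun T hT => ?_⟩
    exact h T ((le_max_left _ _).trans hT) j hj (c T) (hc T (by linarith [le_max_right T0 2]))
  have tx : ∀ T : ℝ, ∀ n, |xk P T n| ≤ G := fun T n => (abs_xk_le hB1' T n).trans hGB1
  have tx0 : ∀ T : ℝ, 1 < T → ∀ n : ℕ, T ^ (1 - ε) < n → xk P T n = 0 := fun T hT n hn =>
    xk_zero (hP.mono (by linarith : 1 / 2 - ε ≤ 1 - ε)) hT hn.le
  refine gen _ fun T hT => ?_
  have := Cc_mk (T := T) (ε := ε) (G := G) (l := 1) (s1 := (ζ : ArithmeticFunction ℝ)) (s2 := (ζ : ArithmeticFunction ℝ))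
    (t := xk P T) (Or.inl toC_one) sz (Or.inr sz) (tx T) (tx0 T hT)
  simpa using this

/-- the mean square on the critical line -/
theorem i0_of (h1 : I1stat) (h2 : I2stat) (h4 : I4stat) (hE : ∀ ε : ℝ, 0 < ε → ε ≤ 1 / 4 → ThmE ε) : I0stat := by
  intro ε P hε hε2 hP
  set ε' : ℝ := min ε (1 / 4) with he
  have g1 : 0 < ε' := lt_min hε (by norm_num)
  have g2 : ε' ≤ 1 / 4 := min_le_right _ _
  have g3 : ε' ≤ ε := min_le_left _ _
  have hP' : Adm (1 / 2 - ε') P := hP.mono (by linarith)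
  obtain ⟨C1, T1, hC1, k1⟩ := h1 ε P hε hε2 hP
  obtain ⟨C2, T2, hC2, k2⟩ := h2 ε P hε hε2 hP
  have k4 := h4 ε P hε hε2 hP
  set v := P 0 ^ 2 + ∫ v in (0 : ℝ)..1, deriv P v ^ 2 with hv
  obtain ⟨C3, T3, k3⟩ := Esmall_zz g1 g2 (hE ε' g1 g2) hP' 1 0 (by norm_num)
  -- eventually
  have e4 : ∀ᶠ T in atTop, |Prj P T 0 ((ζ : ArithmeticFunction ℝ) * (ζ : ArithmeticFunction ℝ) * xk P T)| ≤ (|v| + 1) * om T := by
    have a1 : ∀ᶠ T in atTop, |Prj P T 0 ((ζ : ArithmeticFunction ℝ) * (ζ : ArithmeticFunction ℝ) * xk P T) /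
        (om T * Real.log T ^ 0)| < |v| + 1 := by
      have a2 := k4.abs
      exact a2.eventually (gt_mem_nhds (by linarith))
    filter_upwards [a1, eventually_gt_atTop (1 : ℝ)] with T a3 hT
    have ho := om_pos hT
    rw [pow_zero, mul_one, abs_div, abs_of_pos ho, div_lt_iff₀ ho] at a3
    exact a3.le
  have e5 : ∀ᶠ T in atTop, T ^ (1 - ε / 2) ≤ om T := by
    have a1 := (tendsto_pw (half_pos hε)).eventually (gt_mem_nhds (zero_lt_one' ℝ))
    filter_upwards [a1, eventually_gt_atTop (1 : ℝ)] with T a3 hT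
    have ho := om_pos hT
    rw [div_lt_iff₀ ho, one_mul] at a3
    exact a3.le
  have e6 : ∀ᶠ T in atTop, T ^ (3 / 4 : ℝ) ≤ om T := by
    have a1 := (tendsto_pw (show (0 : ℝ) < 1 / 4 by norm_num)).eventually (gt_mem_nhds (zero_lt_one' ℝ))
    filter_upwards [a1, eventually_gt_atTop (1 : ℝ)] with T a3 hT
    have ho := om_pos hT
    rw [div_lt_iff₀ ho, one_mul] at a3
    have : (1 : ℝ) - 1 / 4 = 3 / 4 := by norm_num
    rw [this] at a3
    exact a3.le
  have e7 : ∀ᶠ T in atTop, T / Real.log T ^ (0 + 1) ≤ om T := by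
    have a1 := (tendsto_err 0).eventually (gt_mem_nhds (zero_lt_one' ℝ))
    filter_upwards [a1, eventually_gt_atTop (1 : ℝ)] with T a3 hT
    have ho := om_pos hT
    rw [div_lt_iff₀ ho, one_mul] at a3
    exact a3.le
  obtain ⟨T4, hT4⟩ := eventually_atTop.1 (e4.and (e5.and (e6.and (e7.and (eventually_gt_atTop (1 : ℝ))))))
  refine ⟨C1 * (C2 + |C3| + (|v| + 1)) + C1, max (max T1 T2) (max T3 T4), by positivity, fun T hT => ?_⟩
  have b1 : T1 ≤ T := ((le_max_left _ _).trans (le_max_left _ _)).trans hT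
  have b2 : T2 ≤ T := ((le_max_right _ _).trans (le_max_left _ _)).trans hT
  have b3 : T3 ≤ T := ((le_max_left _ _).trans (le_max_right _ _)).trans hT
  have b4 : T4 ≤ T := ((le_max_right _ _).trans (le_max_right _ _)).trans hT
  obtain ⟨c4, c5, c6, c7, hT1⟩ := hT4 T b4
  have ho := om_pos hT1
  have hl := Real.log_pos hT1
  have d1 := k1 T b1
  have d2 := k2 T b2
  have d3 := k3 T b3
  set D := Dj P T 0 ((ζ : ArithmeticFunction ℝ) * (ζ : ArithmeticFunction ℝ) * xk P T) with hD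
  set Q := Prj P T 0 ((ζ : ArithmeticFunction ℝ) * (ζ : ArithmeticFunction ℝ) * xk P T) with hQ
  have f1 : ‖MZ P T‖ ≤ (C2 + |C3| + (|v| + 1)) * om T := by
    have f2 : ‖MZ P T‖ ≤ ‖MZ P T - D‖ + (‖D - (Q : ℝ)‖ + |Q|) := by
      have : MZ P T = (MZ P T - D) + ((D - (Q : ℝ)) + (Q : ℝ)) := by ring
      calc ‖MZ P T‖ = ‖(MZ P T - D) + ((D - (Q : ℝ)) + (Q : ℝ))‖ := by rw [← this]
        _ ≤ _ := by
          refine (norm_add_le _ _).trans (add_le_add le_rfl ((norm_add_le _ _).trans (add_le_add le_rfl ?_)))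
          rw [Complex.norm_real, Real.norm_eq_abs]
    have f3 : ‖MZ P T - D‖ ≤ C2 * om T := d2.trans (mul_le_mul_of_nonneg_left c5 hC2)
    have f4 : ‖D - (Q : ℝ)‖ ≤ |C3| * om T := by
      refine d3.trans ?_
      have : C3 * T / Real.log T ^ 1 ≤ |C3| * (T / Real.log T ^ (0 + 1)) := by
        rw [mul_div_assoc, zero_add]
        have hT0 : 0 < T := by linarith
        exact mul_le_mul_of_nonneg_right (le_abs_self _) (by positivity)
      exact this.trans (mul_le_mul_of_nonneg_left c7 (abs_nonneg _))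
    linarith
  calc J2 (fz P T) 0 ≤ C1 * ‖MZ P T‖ + C1 * T ^ (3 / 4 : ℝ) := d1
    _ ≤ C1 * ((C2 + |C3| + (|v| + 1)) * om T) + C1 * om T := by gcongr
    _ = _ := by ring

end H82SZ
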