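import Pool.Agent.H82.SZ2.JG

/-!
# MP_103a5c SimpleZeros v2: the values of `ζ' M / L` at the zeros with a close neighbour
-/

open Finset Filter Topology MeasureTheory

namespace H82SZ

open Pool.Agent.H53.SZC (ln SD)
open Pool.Agent.H17.ZB (Z Z_of_ne Z_differentiable)
open Pool.Agent Pool.Agent.H6 Pool.Agent.H26.SZ

/-- the second factor of `fz` -/
noncomputable def fzR (P : ℝ → ℝ) (T : ℝ) (w : ℂ) : ℂ :=
  (3 / 2 + w)⁻¹ * dpol T (xk P T) (1 / 2 + w) *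
    Complex.exp ((w - T * Complex.I) ^ 2 * (Real.log T : ℂ) / (2 * (T : ℂ) ^ 2))

lemma fz_eq (P : ℝ → ℝ) (T : ℝ) : fz P T = fun w => Z (1 / 2 + w) * fzR P T w := by
  ext w
  unfold fz fzR
  ring

lemma fzR_diff (P : ℝ → ℝ) (T : ℝ) {w : ℂ} (hw : w ≠ -(3 / 2)) : DifferentiableAt ℂ (fzR P T) w := by
  have h0 : (3 / 2 + w) ≠ 0 := fun h => hw (by linear_combination h)
  have h1 : DifferentiableAt ℂ (fun w : ℂ => (3 / 2 + w)⁻¹) w := by
    apply DifferentiableAt.inv (by fun_prop) h0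
  have h2 : DifferentiableAt ℂ (fun w : ℂ => dpol T (xk P T) (1 / 2 + w)) w :=
    DifferentiableAt.comp (g := dpol T (xk P T)) (f := fun w : ℂ => 1 / 2 + w) w
      (Pool.Agent.H53.SZC.dpol_differentiable (xk P T) _) (by fun_prop)
  have h3 : DifferentiableAt ℂ (fun w : ℂ => Complex.exp ((w - T * Complex.I) ^ 2 * (Real.log T : ℂ) / (2 * (T : ℂ) ^ 2))) w := by
    fun_prop
  exact (h1.mul h2).mul h3

lemma fz_diff (P : ℝ → ℝ) (T : ℝ) {w : ℂ} (hw : w ≠ -(3 / 2)) : DifferentiableAt ℂ (fz P T) w := by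
  rw [fz_eq]
  have h1 : DifferentiableAt ℂ (fun w : ℂ => Z (1 / 2 + w)) w := 
    DifferentiableAt.comp (g := Z) (f := fun w : ℂ => 1 / 2 + w) w (Z_differentiable _) (by fun_prop)
  exact h1.mul (fzR_diff P T hw)

lemma fz_analytic (P : ℝ → ℝ) (T : ℝ) {w : ℂ} (hw : w ≠ -(3 / 2)) : AnalyticAt ℂ (fz P T) w := by
  have h : DifferentiableOn ℂ (fz P T) {-(3 / 2)}ᶜ := fun z hz => (fz_diff P T hz).differentiableWithinAt
  exact h.analyticAt (isOpen_compl_singleton.mem_nhds hw)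

lemma ln_ne (t : ℝ) : ln 0 t ≠ -(3 / 2) := by
  intro h
  have := congrArg Complex.re h
  simp at this

lemma hasDerivAt_ln (t : ℝ) : HasDerivAt (ln 0) Complex.I t := by
  unfold Pool.Agent.H53.SZC.ln
  have h := ((Complex.ofRealCLM.hasDerivAt (x := t)).mul_const Complex.I).const_add ((0 : ℝ) : ℂ)
  simpa using h

lemma g_deriv (P : ℝ → ℝ) (T : ℝ) (t : ℝ) :
    HasDerivAt (fun t : ℝ => fz P T (ln 0 t)) (deriv (fz P T) (ln 0 t) * Complex.I) t :=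
  HasDerivAt.comp t (fz_analytic P T (ln_ne t)).differentiableAt.hasDerivAt (hasDerivAt_ln t)

lemma g_deriv2 (P : ℝ → ℝ) (T : ℝ) (t : ℝ) :
    HasDerivAt (fun t : ℝ => deriv (fz P T) (ln 0 t) * Complex.I)
      (deriv (deriv (fz P T)) (ln 0 t) * Complex.I * Complex.I) t :=
  (HasDerivAt.comp t (fz_analytic P T (ln_ne t)).deriv.differentiableAt.hasDerivAt (hasDerivAt_ln t)).mul_const _

lemma g_contDiff (P : ℝ → ℝ) (T : ℝ) : ContDiff ℝ 2 (fun t : ℝ => fz P T (ln 0 t)) := by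
  rw [contDiff_iff_contDiffAt]
  intro t
  have h1 : ContDiffAt ℂ 2 (fz P T) (ln 0 t) := (fz_analytic P T (ln_ne t)).contDiffAt
  have h2 : ContDiffAt ℝ 2 (fz P T) (ln 0 t) := h1.restrict_scalars ℝ
  have h3 : ContDiff ℝ 2 (ln 0) := by
    unfold Pool.Agent.H53.SZC.ln
    exact contDiff_const.add (Complex.ofRealCLM.contDiff.mul contDiff_const)
  exact h2.comp t h3.contDiffAt

lemma rZ_eq_ln (i : PC.Z) : rZ i = 1 / 2 + ln 0 (gZ i) := by
  simp [rZ, gZ, Pool.Agent.H53.SZC.ln]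

lemma Z_rZ (i : PC.Z) : Z (rZ i) = 0 := by
  rw [Z_of_ne (rZ_ne_one i)]
  have : riemannZeta (rZ i) = 0 := i.2
  rw [this, mul_zero]

lemma fz_rZ (P : ℝ → ℝ) (T : ℝ) (i : PC.Z) : fz P T (ln 0 (gZ i)) = 0 := by
  rw [fz_eq]
  show Z (1 / 2 + ln 0 (gZ i)) * _ = 0
  rw [← rZ_eq_ln, Z_rZ, zero_mul]

lemma deriv_Z_rZ (i : PC.Z) : deriv Z (rZ i) = (rZ i - 1) * deriv riemannZeta (rZ i) := by
  have h := Pool.Agent.H53.SZC.DZ_eq (rZ_ne_one i)
  unfold Pool.Agent.H53.SZC.DZ at h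
  rw [Z_rZ, sub_zero] at h
  have h1 : rZ i - 1 ≠ 0 := sub_ne_zero.2 (rZ_ne_one i)
  have h2 : (rZ i - 1) * (deriv Z (rZ i) - (rZ i - 1) * deriv riemannZeta (rZ i)) = 0 := by
    linear_combination h
  rcases mul_eq_zero.1 h2 with h3 | h3
  · exact absurd h3 h1
  · exact sub_eq_zero.1 h3

lemma deriv_fz_rZ (P : ℝ → ℝ) (T : ℝ) (i : PC.Z) :
    deriv (fz P T) (ln 0 (gZ i)) = (rZ i - 1) * deriv riemannZeta (rZ i) * fzR P T (ln 0 (gZ i)) := by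
  rw [fz_eq]
  have h1 : HasDerivAt (fun w : ℂ => Z (1 / 2 + w)) (deriv Z (1 / 2 + ln 0 (gZ i))) (ln 0 (gZ i)) := by
    have h2 := (Z_differentiable (1 / 2 + ln 0 (gZ i))).hasDerivAt
    have h3 : HasDerivAt (fun w : ℂ => 1 / 2 + w) 1 (ln 0 (gZ i)) := (hasDerivAt_id _).const_add _
    have h4 := HasDerivAt.comp (ln 0 (gZ i)) h2 h3
    rw [mul_one] at h4
    exact h4
  have h2 := h1.mul (fzR_diff P T (ln_ne (gZ i))).hasDerivAt
  have h3 := h2.deriv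
  have h4 : Z (1 / 2 + ln 0 (gZ i)) = 0 := by rw [← rZ_eq_ln, Z_rZ]
  rw [h4, zero_mul, add_zero, ← rZ_eq_ln, deriv_Z_rZ] at h3
  exact h3

lemma norm_fzR (P : ℝ → ℝ) (T : ℝ) (t : ℝ) :
    ‖fzR P T (ln 0 t)‖ ^ 2 = (9 / 4 + t ^ 2)⁻¹ * ‖dpol T (xk P T) (1 / 2 + ln 0 t)‖ ^ 2 * Gw T t := by
  unfold fzR
  rw [norm_mul, norm_mul, mul_pow, mul_pow, norm_inv, inv_pow]
  congr 1
  · congr 2
    rw [← Complex.normSq_eq_norm_sq, Complex.normSq_apply]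
    simp
    ring
  · rw [Complex.norm_exp, ← Real.exp_nat_mul]
    unfold Gw
    congr 1
    have h : ((ln 0 t - (T : ℂ) * Complex.I) ^ 2 * (Real.log T : ℂ) / (2 * (T : ℂ) ^ 2)) =
        (((-((t - T) ^ 2 * Real.log T / (2 * T ^ 2)) : ℝ)) : ℂ) := by
      unfold Pool.Agent.H53.SZC.ln
      have hI : Complex.I ^ 2 = -1 := Complex.I_sq
      push_cast
      have : ((0 : ℂ) + (t : ℂ) * Complex.I - (T : ℂ) * Complex.I) ^ 2 = -(((t : ℂ) - T) ^ 2) := by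
        linear_combination ((t : ℂ) - T) ^ 2 * hI
      rw [this]
      ring
    rw [h, Complex.ofReal_re]
    push_cast
    ring

/-- the values at the zeros -/
lemma zero_le (P : ℝ → ℝ) (T : ℝ) (i : PC.Z) :
    Gw T (gZ i) * ‖deriv riemannZeta (rZ i) * dpol T (xk P T) (rZ i)‖ ^ 2 ≤
      9 * ‖deriv (fun t : ℝ => fz P T (ln 0 t)) (gZ i)‖ ^ 2 := by
  have h0 : ‖deriv (fun t : ℝ => fz P T (ln 0 t)) (gZ i)‖ = ‖deriv (fz P T) (ln 0 (gZ i))‖ := by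
    rw [(g_deriv P T (gZ i)).deriv, norm_mul, Complex.norm_I, mul_one]
  rw [h0, deriv_fz_rZ, norm_mul ((rZ i - 1) * _), mul_pow, norm_fzR, ← rZ_eq_ln]
  set γ := gZ i with hγ
  have h1 : ‖rZ i - 1‖ ^ 2 = 1 / 4 + γ ^ 2 := by
    rw [← Complex.normSq_eq_norm_sq, Complex.normSq_apply]
    have : rZ i = 1 / 2 + (γ : ℂ) * Complex.I := rfl
    rw [this]
    simp
    ring
  have h2 : 1 / 9 ≤ (1 / 4 + γ ^ 2) * (9 / 4 + γ ^ 2)⁻¹ := by
    rw [← div_eq_mul_inv, le_div_iff₀ (by positivity)]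
    nlinarith [sq_nonneg γ]
  rw [norm_mul, mul_pow, norm_mul (rZ i - 1), mul_pow, h1]
  have h3 : 0 ≤ Gw T γ * (‖deriv riemannZeta (rZ i)‖ ^ 2 * ‖dpol T (xk P T) (rZ i)‖ ^ 2) :=
    mul_nonneg (Gw_pos _ _).le (by positivity)
  calc Gw T γ * (‖deriv riemannZeta (rZ i)‖ ^ 2 * ‖dpol T (xk P T) (rZ i)‖ ^ 2)
      = 9 * (1 / 9) * (Gw T γ * (‖deriv riemannZeta (rZ i)‖ ^ 2 * ‖dpol T (xk P T) (rZ i)‖ ^ 2)) := by ring
    _ ≤ 9 * ((1 / 4 + γ ^ 2) * (9 / 4 + γ ^ 2)⁻¹) *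
        (Gw T γ * (‖deriv riemannZeta (rZ i)‖ ^ 2 * ‖dpol T (xk P T) (rZ i)‖ ^ 2)) := by gcongr
    _ = _ := by ring

/-- W2 -/
theorem w2_of (hG : JGstat) (hW : W1stat) : W2stat := by
  classical
  intro ε P hε hε2 hP
  obtain ⟨C, T0, hC, k⟩ := hG ε P hε hε2 hP
  refine ⟨36 * Real.pi * C, by positivity, fun β hβ => ?_⟩
  filter_upwards [eventually_ge_atTop T0, eventually_gt_atTop (1 : ℝ)] with T hT hT1 F hF
  have hl := Real.log_pos hT1
  obtain ⟨k1, k2⟩ := k T hT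
  set g : ℝ → ℂ := fun t => fz P T (ln 0 t) with hg
  have hd1 : deriv g = fun t : ℝ => deriv (fz P T) (ln 0 t) * Complex.I := by
    ext t; exact (g_deriv P T t).deriv
  have hd2 : deriv (deriv g) = fun t : ℝ => deriv (deriv (fz P T)) (ln 0 t) * Complex.I * Complex.I := by
    rw [hd1]; ext t; exact (g_deriv2 P T t).deriv
  have hn2 : (fun t => ‖deriv (deriv g) t‖ ^ 2) = fun t : ℝ => ‖deriv (deriv (fz P T)) (ln 0 t)‖ ^ 2 := by
    rw [hd2]; ext t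
    rw [norm_mul, norm_mul, Complex.norm_I, mul_one, mul_one]
  have hint : Integrable (fun t => ‖deriv (deriv g) t‖ ^ 2) := by rw [hn2]; exact k1
  have hval : ∫ t : ℝ, ‖deriv (deriv g) t‖ ^ 2 = J2 (deriv (deriv (fz P T))) 0 := by
    rw [hn2]; rfl
  set h : ℝ := 2 * Real.pi * β / Real.log T with hh
  have hh0 : 0 < h := by positivity
  have hinj : Set.InjOn gZ (F : Set PC.Z) := fun i _ j _ hij => Subtype.ext hij
  have key := hW g (g_contDiff P T) hint h hh0 (F.image gZ) (by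
    intro x hx
    obtain ⟨i, hi, rfl⟩ := Finset.mem_image.1 hx
    obtain ⟨_, j, hj, hj2⟩ := hF i hi
    refine ⟨fz_rZ P T i, gZ j, fun h => hj (Subtype.ext h), hj2, fz_rZ P T j⟩)
  rw [Finset.sum_image hinj, hval] at key
  have e1 : ∀ i : PC.Z, Gw T (gZ i) * ‖deriv riemannZeta (rZ i) * dpol T (xk P T) (rZ i) / (Real.log T : ℂ)‖ ^ 2 =
      (Gw T (gZ i) * ‖deriv riemannZeta (rZ i) * dpol T (xk P T) (rZ i)‖ ^ 2) / Real.log T ^ 2 := by
    intro i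
    rw [norm_div, div_pow, Complex.norm_real, Real.norm_eq_abs, abs_of_pos hl]
    ring
  calc ∑ i ∈ F, Gw T (gZ i) * ‖deriv riemannZeta (rZ i) * dpol T (xk P T) (rZ i) / (Real.log T : ℂ)‖ ^ 2
      ≤ ∑ i ∈ F, 9 * ‖deriv g (gZ i)‖ ^ 2 / Real.log T ^ 2 := by
        refine Finset.sum_le_sum fun i _ => ?_
        rw [e1]
        exact div_le_div_of_nonneg_right (zero_le P T i) (by positivity)
    _ = 9 / Real.log T ^ 2 * ∑ i ∈ F, ‖deriv g (gZ i)‖ ^ 2 := by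
        rw [Finset.mul_sum]
        exact Finset.sum_congr rfl fun i _ => by ring
    _ ≤ 9 / Real.log T ^ 2 * (2 * h * (C * Real.log T ^ 4 * om T)) := by
        gcongr
        exact key.trans (by gcongr)
    _ = 36 * Real.pi * C * β * (om T * Real.log T) := by
        rw [hh]
        field_simp
        ring

end H82SZ
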