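import Pool.Agent.H82.SZ.Main
import Pool.Agent.H82.SZ2.I0
import Pool.Agent.H82.SZ2.W2
import Pool.Agent.H11.SZ2.Ev4
import Pool.Agent.H11.SZ2.Avg
import Pool.Agent.H17.SZ2.JB
import Pool.Agent.H17.SZ2.W1
import Pool.Agent.H17.SZ2.I1
import Pool.Agent.H10.SZ2.JC
import Pool.Agent.H10.SZ2.JD
import Pool.Agent.H69.SZ2.JE
import Pool.Agent.H53.SZ2.JA
import Pool.Agent.H74.SZ2.I2
import Pool.Agent.H74.SZ2.JE1
import Pool.Agent.H26.SZ2.Vc

/-!
# MP_103a5c SimpleZeros v2: assembly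
-/

open Finset Filter Topology MeasureTheory

namespace H82SZ

open Pool.Agent

theorem mb_all (RH : RiemannHypothesis) : Pool.Agent.H26.SZ.MomentBound :=
  moment_of (Pool.Agent.H53.SZC.cf RH) H74SZ.kf thmE_all
    (fun _ _ _ hε _ hα hP => H11.SZ.mstat hε hα hP) (fun _ _ _ _ hε _ hα hP => H82SZ.dstat hε hα hP)

/-- the close pairs from the last block -/
theorem v2_all (RH : RiemannHypothesis) (hF : JFstat) : V2stat := by
  have i0 : I0stat := i0_of Pool.Agent.H17.SZ2.i1 H74SZ.i2 H11.SZ2.i4 thmE_all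
  have hD : JDstat := jd i0 Pool.Agent.H53.SZ2.ja Pool.Agent.H17.SZ2.jb jc
  have hE : JEstat := H69SZ2.je Pool.Agent.H53.SZ2.ja H74SZ.je1 H69SZ2.je2
  exact Pool.Agent.H26.SZ.v2_of RH (mb_all RH) (w2_of (jg_of Pool.Agent.H53.SZ2.ja hD hE hF) Pool.Agent.H17.SZ2.w1)

end H82SZ
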