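import Pool.Agent.H82.SZ2.Defs
import Pool.Agent.H53.SZ2.JF1
import Pool.Agent.H17.SZ2.JB

/-!
# MP_103a5c SimpleZeros v2: block JF, the mean square of the second derivative on the imaginary axis
-/

open MeasureTheory Filter Topology

namespace H82SZ

open Pool.Agent.H53.SZC (ln SD)

/-- the kernel -/
noncomputable def Kc (c u : ℝ) : ℝ := |c|⁻¹ * (c ^ 2 + u ^ 2)⁻¹

lemma Kc_pos {c : ℝ} (hc : c ≠ 0) (u : ℝ) : 0 < Kc c u := by
  unfold Kc
  have := abs_pos.2 hc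
  have h2 : 0 < c ^ 2 := by positivity
  positivity

lemma Kc_int {c : ℝ} (hc : c ≠ 0) : Integrable (Kc c) ∧ ∫ u, Kc c u = Real.pi / c ^ 2 := by
  have hc' := abs_pos.2 hc
  obtain ⟨h1, h2⟩ := Pool.Agent.H53.SZC.integral_poisson hc'
  have e : Kc c = fun u => (|c|⁻¹ * |c|⁻¹) * (|c| / (|c| ^ 2 + u ^ 2)) := by
    ext u
    unfold Kc
    rw [sq_abs]
    have : 0 < c ^ 2 + u ^ 2 := by positivity
    field_simp
  rw [e]
  refine ⟨h1.const_mul _, ?_⟩
  rw [integral_const_mul, h2, ← mul_inv, abs_mul_abs_self]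
  ring

lemma Kc_cont {c : ℝ} (hc : c ≠ 0) : Continuous (Kc c) := by
  unfold Kc
  refine continuous_const.mul (Continuous.inv₀ (by fun_prop) fun u => ?_)
  have : 0 < c ^ 2 := by positivity
  positivity

lemma Kc_le {c : ℝ} (hc : c ≠ 0) (u : ℝ) : Kc c u ≤ |c|⁻¹ * (c ^ 2)⁻¹ := by
  unfold Kc
  have h2 : 0 < c ^ 2 := by positivity
  have := abs_pos.2 hc
  gcongr
  nlinarith [sq_nonneg u]

lemma Kc_ge {c : ℝ} (hc : c ≠ 0) (t g : ℝ) : ‖((ln c t - g * Complex.I) ^ 3)⁻¹‖ ≤ Kc c (g - t) := by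
  have h1 : ‖ln c t - g * Complex.I‖ ^ 2 = c ^ 2 + (g - t) ^ 2 := by
    rw [← Complex.normSq_eq_norm_sq, Complex.normSq_apply]
    simp
    ring
  have h2 := Pool.Agent.H53.SZ2.ln_sub_norm c t g
  have hc' := abs_pos.2 hc
  rw [norm_inv, norm_pow, pow_succ, h1, mul_inv, mul_comm]
  unfold Kc
  have h3 : 0 < c ^ 2 + (g - t) ^ 2 := by positivity
  gcongr

/-- the Young inequality for the kernel -/
theorem young {g : ℝ → ℂ} (hg : Integrable g) (hg2 : Integrable fun t => ‖g t‖ ^ 2) {c : ℝ} (hc : c ≠ 0) :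
    Integrable (fun γ : ℝ => ‖∫ t : ℝ, g t / (ln c t - γ * Complex.I) ^ 3‖ ^ 2) ∧
    ∫ γ : ℝ, ‖∫ t : ℝ, g t / (ln c t - γ * Complex.I) ^ 3‖ ^ 2 ≤ (Real.pi / c ^ 2) ^ 2 * ∫ t, ‖g t‖ ^ 2 := by
  obtain ⟨kI, kv⟩ := Kc_int hc
  have hconv := hg2.integrable_convolution (ContinuousLinearMap.mul ℝ ℝ) kI
  have hval := integral_convolution (ContinuousLinearMap.mul ℝ ℝ) hg2 kI
  have hb : ∀ γ : ℝ, ‖∫ t : ℝ, g t / (ln c t - γ * Complex.I) ^ 3‖ ^ 2 ≤
      Real.pi / c ^ 2 * (MeasureTheory.convolution (fun t => ‖g t‖ ^ 2) (Kc c) (ContinuousLinearMap.mul ℝ ℝ) volume γ) := by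
    intro γ
    have hKγ : Integrable fun t => Kc c (γ - t) := kI.comp_sub_left γ
    have hKγv : ∫ t, Kc c (γ - t) = Real.pi / c ^ 2 := by rw [integral_sub_left_eq_self (Kc c)]; exact kv
    have hKc : Continuous fun t => Kc c (γ - t) := (Kc_cont hc).comp (by fun_prop)
    have i1 : Integrable fun t => ‖g t‖ * Kc c (γ - t) := by
      refine hg.norm.mul_bdd (c := |c|⁻¹ * (c ^ 2)⁻¹) hKc.aestronglyMeasurable (Eventually.of_forall fun t => ?_)
      rw [Real.norm_eq_abs, abs_of_pos (Kc_pos hc _)]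
      exact Kc_le hc _
    have i2 : Integrable fun t => ‖g t‖ ^ 2 * Kc c (γ - t) := by
      refine hg2.mul_bdd (c := |c|⁻¹ * (c ^ 2)⁻¹) hKc.aestronglyMeasurable (Eventually.of_forall fun t => ?_)
      rw [Real.norm_eq_abs, abs_of_pos (Kc_pos hc _)]
      exact Kc_le hc _
    have hn : ‖∫ t : ℝ, g t / (ln c t - γ * Complex.I) ^ 3‖ ≤ ∫ t, ‖g t‖ * Kc c (γ - t) := by
      refine norm_integral_le_of_norm_le i1 (Eventually.of_forall fun t => ?_)
      rw [div_eq_mul_inv, norm_mul]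
      exact mul_le_mul_of_nonneg_left (Kc_ge hc t γ) (norm_nonneg _)
    have hs : ∀ t, Real.sqrt (Kc c (γ - t)) ^ 2 = Kc c (γ - t) := fun t => Real.sq_sqrt (Kc_pos hc _).le
    have hcs := Pool.Agent.H17.SZ2.cs volume (fun t => ‖g t‖ * Real.sqrt (Kc c (γ - t))) (fun t => Real.sqrt (Kc c (γ - t)))
      (by simp only [mul_pow, hs]; exact i2) (by simp only [hs]; exact hKγ)
      (by
        have : (fun t => ‖g t‖ * Real.sqrt (Kc c (γ - t)) * Real.sqrt (Kc c (γ - t))) = fun t => ‖g t‖ * Kc c (γ - t) := by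
          ext t
          rw [mul_assoc, ← pow_two, hs]
        rw [this]; exact i1)
    have e1 : ∫ t, ‖g t‖ * Real.sqrt (Kc c (γ - t)) * Real.sqrt (Kc c (γ - t)) = ∫ t, ‖g t‖ * Kc c (γ - t) :=
      integral_congr_ae (Eventually.of_forall fun t => by
        show ‖g t‖ * Real.sqrt (Kc c (γ - t)) * Real.sqrt (Kc c (γ - t)) = _
        rw [mul_assoc, ← pow_two, hs])
    rw [e1] at hcs
    simp only [mul_pow, hs, hKγv] at hcs
    have e2 : MeasureTheory.convolution (fun t => ‖g t‖ ^ 2) (Kc c) (ContinuousLinearMap.mul ℝ ℝ) volume γ =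
        ∫ t, ‖g t‖ ^ 2 * Kc c (γ - t) := rfl
    rw [e2]
    exact ((pow_le_pow_left₀ (norm_nonneg _) hn 2).trans hcs).trans (le_of_eq (mul_comm _ _))
  have hmeas : Continuous fun γ : ℝ => ∫ t : ℝ, g t / (ln c t - γ * Complex.I) ^ 3 :=
    continuous_iff_continuousAt.2 fun γ => (Pool.Agent.H53.SZ2.cau_hasDerivAt hg hc 3 γ).continuousAt
  have hI : Integrable (fun γ : ℝ => ‖∫ t : ℝ, g t / (ln c t - γ * Complex.I) ^ 3‖ ^ 2) := by
    refine (hconv.const_mul (Real.pi / c ^ 2)).mono' (hmeas.norm.pow 2).aestronglyMeasurable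
      (Eventually.of_forall fun γ => ?_)
    rw [Real.norm_eq_abs, abs_of_nonneg (by positivity)]
    exact hb γ
  refine ⟨hI, ?_⟩
  refine (integral_mono hI (hconv.const_mul (Real.pi / c ^ 2)) hb).trans ?_
  rw [integral_const_mul, hval, kv]
  refine le_of_eq ?_
  simp only [ContinuousLinearMap.mul_apply']
  ring

/-- JF -/
theorem jf : JFstat := by
  intro c K f hc h
  have hcn : (-c) ≠ 0 := neg_ne_zero.2 hc.ne'
  have hle : -c ≤ c := by linarith
  have i1 : Integrable fun t : ℝ => f (ln c t) := h.integrable (by norm_num) hle le_rfl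
  have i2 : Integrable fun t : ℝ => f (ln (-c) t) := h.integrable (by norm_num) le_rfl hle
  have hK := h.nonneg hle
  have sq : ∀ x, -c ≤ x → x ≤ c → Integrable fun t : ℝ => ‖f (ln x t)‖ ^ 2 := by
    intro x h1 h2
    have hi : Integrable fun t : ℝ => f (ln x t) := h.integrable (by norm_num) h1 h2
    have hcont : Continuous fun t : ℝ => f (ln x t) := h.continuous h1 h2
    have h3 : Integrable fun t : ℝ => ‖f (ln x t)‖ * ‖f (ln x t)‖ := by
      refine hi.norm.mul_bdd (c := K) hcont.norm.aestronglyMeasurable (Eventually.of_forall fun t => ?_)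
      rw [norm_norm]
      refine (h.bd (ln x t) (by simpa using h1) (by simpa using h2)).trans ?_
      refine div_le_self hK (one_le_pow₀ ?_)
      nlinarith [sq_nonneg (ln x t).im]
    refine h3.congr (Eventually.of_forall fun t => ?_)
    show _ = ‖f (ln x t)‖ ^ 2
    ring
  obtain ⟨a1, a2⟩ := young i1 (sq c hle le_rfl) hc.ne'
  obtain ⟨b1, b2⟩ := young i2 (sq (-c) le_rfl hle) hcn
  have hf : ∀ t : ℝ, ‖deriv (deriv f) (ln 0 t)‖ ^ 2 ≤ 2 / Real.pi ^ 2 *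
      (‖∫ s : ℝ, f (ln c s) / (ln c s - t * Complex.I) ^ 3‖ ^ 2 + ‖∫ s : ℝ, f (ln (-c) s) / (ln (-c) s - t * Complex.I) ^ 3‖ ^ 2) := by
    intro t
    rw [Pool.Agent.H53.SZ2.jf1 hc h (by norm_num) t, norm_mul, mul_pow, norm_inv, Complex.norm_real, Real.norm_eq_abs,
      abs_of_pos Real.pi_pos]
    set A := ∫ s : ℝ, f (ln c s) / (ln c s - t * Complex.I) ^ 3
    set B := ∫ s : ℝ, f (ln (-c) s) / (ln (-c) s - t * Complex.I) ^ 3
    have h1 : ‖A - B‖ ^ 2 ≤ 2 * (‖A‖ ^ 2 + ‖B‖ ^ 2) := by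
      have h2 := norm_sub_le A B
      have h3 := norm_nonneg (A - B)
      nlinarith [sq_nonneg (‖A‖ - ‖B‖), norm_nonneg A, norm_nonneg B]
    have h4 : 0 < Real.pi := Real.pi_pos
    calc (Real.pi⁻¹) ^ 2 * ‖A - B‖ ^ 2 ≤ (Real.pi⁻¹) ^ 2 * (2 * (‖A‖ ^ 2 + ‖B‖ ^ 2)) := by gcongr
      _ = _ := by rw [inv_pow]; ring
  have hcont : Continuous fun t : ℝ => deriv (deriv f) (ln 0 t) := by
    have e : (fun t : ℝ => deriv (deriv f) (ln 0 t)) = fun t : ℝ => (Real.pi : ℂ)⁻¹ *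
        ((∫ s : ℝ, f (ln c s) / (ln c s - t * Complex.I) ^ 3) - ∫ s : ℝ, f (ln (-c) s) / (ln (-c) s - t * Complex.I) ^ 3) := by
      ext t
      exact Pool.Agent.H53.SZ2.jf1 hc h (by norm_num) t
    rw [e]
    have c1 : Continuous fun γ : ℝ => ∫ t : ℝ, f (ln c t) / (ln c t - γ * Complex.I) ^ 3 :=
      continuous_iff_continuousAt.2 fun γ => (Pool.Agent.H53.SZ2.cau_hasDerivAt i1 hc.ne' 3 γ).continuousAt
    have c2 : Continuous fun γ : ℝ => ∫ t : ℝ, f (ln (-c) t) / (ln (-c) t - γ * Complex.I) ^ 3 :=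
      continuous_iff_continuousAt.2 fun γ => (Pool.Agent.H53.SZ2.cau_hasDerivAt i2 hcn 3 γ).continuousAt
    exact continuous_const.mul (c1.sub c2)
  have hdom : Integrable fun t : ℝ => 2 / Real.pi ^ 2 *
      (‖∫ s : ℝ, f (ln c s) / (ln c s - t * Complex.I) ^ 3‖ ^ 2 + ‖∫ s : ℝ, f (ln (-c) s) / (ln (-c) s - t * Complex.I) ^ 3‖ ^ 2) :=
    (a1.add b1).const_mul _
  have hI : Integrable fun t : ℝ => ‖deriv (deriv f) (ln 0 t)‖ ^ 2 := by
    refine hdom.mono' (hcont.norm.pow 2).aestronglyMeasurable (Eventually.of_forall fun t => ?_)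
    rw [Real.norm_eq_abs, abs_of_nonneg (by positivity)]
    exact hf t
  refine ⟨hI, ?_⟩
  have h1 := integral_mono hI hdom hf
  rw [integral_const_mul, integral_add a1 b1] at h1
  have hπ := Real.pi_pos
  have e1 : J2 f c = ∫ t : ℝ, ‖f (ln c t)‖ ^ 2 := rfl
  have e2 : J2 f (-c) = ∫ t : ℝ, ‖f (ln (-c) t)‖ ^ 2 := rfl
  have p1 : 0 ≤ J2 f c := integral_nonneg fun t => by positivity
  have p2 : 0 ≤ J2 f (-c) := integral_nonneg fun t => by positivity
  rw [← e1] at a2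
  rw [← e2, neg_sq] at b2
  calc J2 (deriv (deriv f)) 0 = ∫ t : ℝ, ‖deriv (deriv f) (ln 0 t)‖ ^ 2 := rfl
    _ ≤ _ := h1
    _ ≤ 2 / Real.pi ^ 2 * ((Real.pi / c ^ 2) ^ 2 * J2 f c + (Real.pi / c ^ 2) ^ 2 * J2 f (-c)) := by gcongr
    _ = 2 / c ^ 4 * (J2 f c + J2 f (-c)) := by field_simp
    _ ≤ 10 / c ^ 4 * (J2 f c + J2 f (-c)) := by
        have : 0 ≤ J2 f c + J2 f (-c) := by linarith
        have hc4 : 0 < c ^ 4 := by positivity
        gcongr
        norm_num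

end H82SZ
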