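import Pool.Agent.H82.SZ2.Defs

/-!
# MP_103a5c SimpleZeros v2: the mean square of the second derivative
-/

open Finset Filter Topology MeasureTheory

namespace H82SZ

open Pool.Agent.H53.SZC (ln SD)

lemma Adm.mul_exp {θ : ℝ} {P : ℝ → ℝ} (h : Adm θ P) : Adm θ (fun v => P v * Real.exp (2 * v)) where
  smooth := h.smooth.mul (by fun_prop)
  cpt := h.cpt.mul_right
  zero := fun v hv => by simp [h.zero v hv]

lemma one_le_om : ∀ᶠ T in atTop, 1 ≤ om T := by
  have a1 := (tendsto_pw (show (0 : ℝ) < 1 by norm_num)).eventually (gt_mem_nhds (zero_lt_one' ℝ))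
  filter_upwards [a1, eventually_gt_atTop (1 : ℝ)] with T a3 hT
  have ho := om_pos hT
  rw [div_lt_iff₀ ho, one_mul, sub_self, Real.rpow_zero] at a3
  exact a3.le

/-- the mean square of the second derivative -/
theorem jg_of (hA : JAstat) (hD : JDstat) (hE : JEstat) (hF : JFstat) : JGstat := by
  intro ε P hε hε2 hP
  obtain ⟨C1, T1, hC1, k1⟩ := hD ε P hε hε2 hP
  obtain ⟨C2, T2, hC2, k2⟩ := hD ε _ hε hε2 hP.mul_exp
  obtain ⟨C3, T3, hC3, k3⟩ := hE ε P hε hε2 hP
  obtain ⟨T4, hT4⟩ := eventually_atTop.1 one_le_om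
  refine ⟨10 * (C1 + (C3 * C2 + C3)), max (max T1 T2) (max (max T3 T4) 3), by positivity, fun T hT => ?_⟩
  have b1 : T1 ≤ T := ((le_max_left _ _).trans (le_max_left _ _)).trans hT
  have b2 : T2 ≤ T := ((le_max_right _ _).trans (le_max_left _ _)).trans hT
  have b3 : T3 ≤ T := ((le_max_left _ _).trans ((le_max_left _ _).trans (le_max_right _ _))).trans hT
  have b4 : T4 ≤ T := ((le_max_right _ _).trans ((le_max_left _ _).trans (le_max_right _ _))).trans hT
  have b5 : 3 ≤ T := ((le_max_right _ _).trans (le_max_right _ _)).trans hT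
  have hl1 : 1 ≤ Real.log T := by
    rw [Real.le_log_iff_exp_le (by linarith)]
    have := Real.exp_one_lt_d9
    linarith
  have hl : 0 < Real.log T := by linarith
  have hc : 0 < 1 / Real.log T := by positivity
  have hc1 : 1 / Real.log T ≤ 1 := by rw [div_le_one hl]; exact hl1
  obtain ⟨K, hK⟩ := hA P T (by linarith)
  have hK2 : SD 3 (-(1 / Real.log T)) (1 / Real.log T) K (fz P T) := hK.sub (by linarith) (by linarith)
  obtain ⟨g1, g2⟩ := hF _ K _ hc hK2
  refine ⟨g1, g2.trans ?_⟩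
  have ho := hT4 T b4
  have e : 10 / (1 / Real.log T) ^ 4 = 10 * Real.log T ^ 4 := by
    rw [one_div, inv_pow, div_inv_eq_mul]
  rw [e]
  have d1 := k1 T b1
  have d2 := k2 T b2
  have d3 := k3 T b3
  have d4 : J2 (fz P T) (-(1 / Real.log T)) ≤ (C3 * C2 + C3) * om T := by
    refine d3.trans ?_
    calc C3 * J2 (fz (fun v => P v * Real.exp (2 * v)) T) (1 / Real.log T) + C3
        ≤ C3 * (C2 * om T) + C3 * om T := by
          have := mul_le_mul_of_nonneg_left d2 hC3
          nlinarith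
      _ = _ := by ring
  calc 10 * Real.log T ^ 4 * (J2 (fz P T) (1 / Real.log T) + J2 (fz P T) (-(1 / Real.log T)))
      ≤ 10 * Real.log T ^ 4 * (C1 * om T + (C3 * C2 + C3) * om T) := by gcongr
    _ = _ := by ring

end H82SZ
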