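import Pool.Agent.H82.SZ2.Asm2
import Pool.Agent.H82.SZ2.JF

/-!
# MP_103a5c SimpleZeros v2: the final theorem
-/

namespace H82SZ

/-- **Close pairs of zeros.** -/
theorem v2 (RH : RiemannHypothesis) : V2stat := v2_all RH jf

end H82SZ
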